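import Pool.Agent.R766.RG.Limit

/-!
# The almost sure Schramm bound for rotor walks on transient graphs

For every infinite connected locally finite simple graph on which simple random walk is
transient, all cyclic orders `τ` and every start vertex `a`: if the initial rotor configuration
is sampled from the oriented wired uniform spanning forest measure, then almost surely, for every
vertex `x`, the number of visits to `x` during `n` successive rotor walks from `a`, divided by
`n`, has upper limit at most the Green function of simple random walk.

The idea. In a finite volume one walker permutes the wired oriented spanning forests, so the
numbers of visits of successive stopped walkers are a stationary sequence, with mean the killed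
Green function. A conserved quantity gives a deterministic lower bound for the number of visits
of `b` walkers, so that the excess over this bound in blocks of `b` walkers is a nonnegative
stationary sequence with a small mean, and the maximal inequality bounds all its averages at
once, uniformly in the volume. The bound passes to the infinite volume for walkers stopped in a
fixed finite set, and then to the infinite walks by the abelian property.

The definitions are in `Pool.Agent.R766.RG.Walk` (`Cfg`, `SingleOrbit`, `step`, `walk`,
`Transient`, `final`, `visits`), `Pool.Agent.R766.RG.Green` (`prob`, `green`),
`Pool.Agent.R766.RG.Bij` (`Edge`, `IsForest`, `forests`) and `Pool.Agent.R766.RG.Limit`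
(`forestProb`, `IsOWUSF`).
-/

set_option autoImplicit false

open MeasureTheory Filter R766.RG

namespace Pool.Agent.Results.MP_42a48c_pr.SchrammBound

/-- The almost sure Schramm bound on every transient graph. -/
theorem result {V : Type*} [Infinite V] (G : SimpleGraph V) [G.LocallyFinite]
    (hconn : G.Connected) (htr : ∃ o, green G o o ≠ ⊤)
    (τ : ∀ x, Equiv.Perm (G.neighborSet x)) (hτ : ∀ x, SingleOrbit (τ x)) (a : V)
    (μ : Measure (Cfg G)) (hμ : IsOWUSF G μ) :
    ∀ᵐ ρ ∂μ, ∀ x, limsup (fun n : ℕ => visits τ a n ρ x / (n : ENNReal)) atTop ≤ green G a x :=
  schramm hconn htr hτ a hμ

end Pool.Agent.Results.MP_42a48c_pr.SchrammBound
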